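import Pool.Agent.H98.SLN.Targets

/-!
Row MU1 of the board sln_modules (MP_65efe8_pr).
-/

set_option autoImplicit false

open MeasureTheory ProbabilityTheory Filter Topology
open scoped ENNReal
open Pool.Agent.H95 Pool.Agent.H95.Cop Pool.Agent.H98.SLN
open Pool.Agent.H55.CG (pz VV Mo)

namespace Pool.Agent.H91.SLN

theorem meas_H (a b : ℕ) : Measurable (fun x : ℕ → ℝ => H x a b) := by
  unfold H
  exact Finset.measurable_fun_sum _ fun i _ => measurable_pi_apply i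

theorem meas_lc : Measurable lc := by
  unfold lc
  exact Real.measurable_log.comp (Real.continuous_cosh.measurable.comp (measurable_id.div_const 2))

theorem meas_Sq (K : PMF ℕ) (q : ℕ) (n : ℕ) :
    ∀ y, Measurable (fun x : ℕ → ℝ => Sq K q x n y) := by
  induction n using Nat.strong_induction_on with
  | _ n ih =>
    intro y
    cases n with
    | zero =>
      have h1 : (fun x : ℕ → ℝ => Sq K q x 0 y) = fun _ => (0 : ℝ) := by
        funext x
        rw [Sq]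
      rw [h1]
      exact measurable_const
    | succ n =>
      have h1 : (fun x : ℕ → ℝ => Sq K q x (n + 1) y) = fun x => ∑ j : Fin (n + 1),
          kq K q (j + 1) * (lc (H x y (y + (j + 1))) * uq K q (n - j) +
            Sq K q x (n - j) (y + (j + 1))) := by
        funext x
        rw [Sq]
      rw [h1]
      refine Finset.measurable_fun_sum _ fun j _ => ?_
      exact (((meas_lc.comp (meas_H _ _)).mul_const _).add
        (ih (n - j) (by omega) _)).const_mul _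

theorem meas_YY (K : PMF ℕ) (ℓ q a b : ℕ) : Measurable (fun x : ℕ → ℝ => YY K ℓ q x a b) := by
  unfold YY
  refine Measurable.div_const ?_ _
  refine Finset.measurable_fun_sum _ fun y _ => Finset.measurable_fun_sum _ fun z _ => ?_
  exact (((meas_H _ _).div_const 2).const_mul _).add (meas_Sq K q _ _)

theorem meas_cD (ℓ a b : ℕ) : Measurable (fun x : ℕ → ℝ => cD ℓ x a b) := by
  unfold cD
  exact ((meas_H _ _).div_const 2).add_const _

theorem meas_w1 (K : PMF ℕ) (ℓ q n d0 d1 : ℕ) (β : ℝ) : Measurable (w1 K ℓ q n d0 d1 β) := by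
  unfold w1
  refine Finset.measurable_fun_sum _ fun p _ => ?_
  refine Measurable.ite ?_ ?_ measurable_const
  · have h1 : {x : ℕ → ℝ | gd K ℓ q β x p} =
        {x : ℕ → ℝ | cD ℓ x p.1 p.2 - 60 ≤ YY K ℓ q x p.1 p.2} ∩
        {x : ℕ → ℝ | β + 63 ≤ cD ℓ x p.1 p.2} := rfl
    rw [h1]
    exact (measurableSet_le ((meas_cD _ _ _).sub_const _) (meas_YY _ _ _ _ _)).inter
      (measurableSet_le measurable_const (meas_cD _ _ _))
  · exact Real.continuous_exp.measurable.comp ((meas_cD _ _ _).sub_const _)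

theorem w1_nonneg (K : PMF ℕ) (ℓ q n d0 d1 : ℕ) (β : ℝ) (x : ℕ → ℝ) :
    0 ≤ w1 K ℓ q n d0 d1 β x := by
  unfold w1
  refine Finset.sum_nonneg fun p _ => ?_
  split_ifs
  · exact (Real.exp_pos _).le
  · exact le_rfl

theorem w1_le (K : PMF ℕ) (ℓ q n d0 d1 : ℕ) (β : ℝ) (x : ℕ → ℝ) :
    w1 K ℓ q n d0 d1 β x ≤ ∑ p ∈ PP n d0 d1, Real.exp (cD ℓ x p.1 p.2) := by
  unfold w1
  refine Finset.sum_le_sum fun p _ => ?_
  split_ifs
  · exact Real.exp_le_exp.2 (by linarith)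
  · exact (Real.exp_pos _).le

theorem sum_rpow_le {ι : Type*} (s : Finset ι) (f : ι → ℝ) (hf : ∀ i, 0 ≤ f i) {g : ℝ}
    (hg0 : 0 < g) (hg1 : g ≤ 1) : (∑ i ∈ s, f i) ^ g ≤ ∑ i ∈ s, f i ^ g := by
  classical
  induction s using Finset.induction_on with
  | empty => simp [Real.zero_rpow hg0.ne']
  | insert a s ha ih =>
    rw [Finset.sum_insert ha, Finset.sum_insert ha]
    have h1 := Real.rpow_add_le_add_rpow (hf a) (Finset.sum_nonneg fun i _ => hf i) hg0.le hg1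
      (b := ∑ i ∈ s, f i)
    linarith

theorem PP_card (n d0 d1 : ℕ) : ((PP n d0 d1).card : ℝ) ≤ (n : ℝ) ^ 2 := by
  have h1 : (PP n d0 d1).card ≤ n * n := by
    unfold PP
    refine (Finset.card_filter_le _ _).trans ?_
    simp
  have h2 : ((PP n d0 d1).card : ℝ) ≤ ((n * n : ℕ) : ℝ) := by exact_mod_cast h1
  rw [pow_two]
  push_cast at h2
  exact h2

theorem PP_mem {n d0 d1 : ℕ} (hd : 2 ≤ d0) {p : ℕ × ℕ} (hp : p ∈ PP n d0 d1) :
    p.1 ≤ p.2 ∧ p.2 < n := by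
  unfold PP at hp
  rw [Finset.mem_filter, Finset.mem_product, Finset.mem_range, Finset.mem_range] at hp
  omega

/-- MU1 -/
theorem pf_MU1 (hEXQ : T_EXQ) : T_MU1 := by
  intro K α ℓ q N n d0 d1 β ν hN hα hα1 hn hd hMC
  have hprob := hMC.prob
  set g : ℝ := 1 / (1 + α) with hg
  have hg0 : 0 < g := by rw [hg]; positivity
  have hg1 : g ≤ 1 := by
    rw [hg, div_le_one (by linarith)]
    linarith
  have h2g : 2 / (1 + α) = 2 * g := by rw [hg]; ring
  have hg2 : 1 ≤ 2 * g := by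
    rw [← h2g, le_div_iff₀ (by linarith)]
    linarith
  have hg3 : 2 * g - 1 ≤ 1 := by linarith
  rw [h2g]
  set P := PP n d0 d1 with hP
  have hcard : ((P.card : ℕ) : ℝ) ≤ (n : ℝ) ^ 2 := PP_card n d0 d1
  have hn1 : (1 : ℝ) ≤ n := by exact_mod_cast hn
  have hmw : Measurable (w1 K ℓ q n d0 d1 β) := meas_w1 K ℓ q n d0 d1 β
  -- exponentials
  have hexp : ∀ u : ℝ, ∀ p ∈ P,
      Integrable (fun x : ℕ → ℝ => Real.exp (cD ℓ x p.1 p.2) ^ u) (iid ν) ∧
      ∫ x : ℕ → ℝ, Real.exp (cD ℓ x p.1 p.2) ^ u ∂(iid ν) = AA ν ℓ u ^ (p.2 + 1 - p.1) := by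
    intro u p hp
    have h1 := (hEXQ ν hMC.exp ℓ p.1 p.2 (PP_mem hd hp).1).1 u
    have h2 : (fun x : ℕ → ℝ => Real.exp (cD ℓ x p.1 p.2) ^ u) =
        fun x => Real.exp (u * cD ℓ x p.1 p.2) := by
      funext x
      rw [← Real.exp_mul, mul_comm]
    rw [h2]
    exact ⟨h1.2.1, h1.2.2⟩
  have hAA : ∀ u : ℝ, 0 < AA ν ℓ u := fun u => (hEXQ ν hMC.exp ℓ 0 0 le_rfl).1 u |>.1
  -- pointwise bounds
  have b1 : ∀ x, w1 K ℓ q n d0 d1 β x ^ g ≤ ∑ p ∈ P, Real.exp (cD ℓ x p.1 p.2) ^ g := fun x =>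
    (Real.rpow_le_rpow (w1_nonneg _ _ _ _ _ _ _ _) (w1_le _ _ _ _ _ _ _ _) hg0.le).trans
      (sum_rpow_le P _ (fun _ => (Real.exp_pos _).le) hg0 hg1)
  have b2 : ∀ x, w1 K ℓ q n d0 d1 β x ^ (2 * g) ≤
      (n : ℝ) ^ 2 * ∑ p ∈ P, Real.exp (cD ℓ x p.1 p.2) ^ (2 * g) := by
    intro x
    have h1 := Real.rpow_le_rpow (w1_nonneg K ℓ q n d0 d1 β x) (w1_le K ℓ q n d0 d1 β x)
      (by linarith : (0 : ℝ) ≤ 2 * g)
    have h2 := Real.rpow_sum_le_const_mul_sum_rpow_of_nonneg (s := P)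
      (f := fun p => Real.exp (cD ℓ x p.1 p.2)) hg2 (fun _ _ => (Real.exp_pos _).le)
    have h3 : ((P.card : ℕ) : ℝ) ^ (2 * g - 1) ≤ (n : ℝ) ^ 2 := by
      calc ((P.card : ℕ) : ℝ) ^ (2 * g - 1) ≤ ((n : ℝ) ^ 2) ^ (2 * g - 1) :=
            Real.rpow_le_rpow (Nat.cast_nonneg _) hcard (by linarith)
        _ ≤ ((n : ℝ) ^ 2) ^ (1 : ℝ) :=
            Real.rpow_le_rpow_of_exponent_le (one_le_pow₀ hn1) hg3
        _ = (n : ℝ) ^ 2 := Real.rpow_one _
    refine h1.trans (h2.trans ?_)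
    exact mul_le_mul_of_nonneg_right h3
      (Finset.sum_nonneg fun _ _ => Real.rpow_nonneg (Real.exp_pos _).le _)
  have i1 : Integrable (fun x : ℕ → ℝ => ∑ p ∈ P, Real.exp (cD ℓ x p.1 p.2) ^ g) (iid ν) :=
    integrable_finsetSum _ fun p hp => (hexp g p hp).1
  have i2 : Integrable (fun x : ℕ → ℝ => (n : ℝ) ^ 2 *
      ∑ p ∈ P, Real.exp (cD ℓ x p.1 p.2) ^ (2 * g)) (iid ν) :=
    (integrable_finsetSum _ fun p hp => (hexp (2 * g) p hp).1).const_mul _
  have j1 : Integrable (fun x => w1 K ℓ q n d0 d1 β x ^ g) (iid ν) := by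
    refine i1.mono' (hmw.pow_const g).aestronglyMeasurable
      (Filter.Eventually.of_forall fun x => ?_)
    rw [Real.norm_eq_abs, abs_of_nonneg (Real.rpow_nonneg (w1_nonneg _ _ _ _ _ _ _ _) _)]
    exact b1 x
  have j2 : Integrable (fun x => w1 K ℓ q n d0 d1 β x ^ (2 * g)) (iid ν) := by
    refine i2.mono' (hmw.pow_const (2 * g)).aestronglyMeasurable
      (Filter.Eventually.of_forall fun x => ?_)
    rw [Real.norm_eq_abs, abs_of_nonneg (Real.rpow_nonneg (w1_nonneg _ _ _ _ _ _ _ _) _)]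
    exact b2 x
  refine ⟨j1, j2, ?_, ?_⟩
  · refine (integral_mono j1 i1 b1).trans ?_
    rw [integral_finsetSum _ fun p hp => (hexp g p hp).1]
    have h1 : ∑ p ∈ P, ∫ x : ℕ → ℝ, Real.exp (cD ℓ x p.1 p.2) ^ g ∂(iid ν) ≤ ∑ p ∈ P, (1 : ℝ) :=
      Finset.sum_le_sum fun p hp => by
        rw [(hexp g p hp).2]
        exact pow_le_one₀ (hAA _).le hMC.a1
    refine h1.trans ?_
    rw [Finset.sum_const, nsmul_eq_mul, mul_one]
    calc ((P.card : ℕ) : ℝ) ≤ (n : ℝ) ^ 2 := hcard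
      _ = n * n := by ring
  · refine (integral_mono j2 i2 b2).trans ?_
    rw [integral_const_mul, integral_finsetSum _ fun p hp => (hexp (2 * g) p hp).1]
    have h1 : ∑ p ∈ P, ∫ x : ℕ → ℝ, Real.exp (cD ℓ x p.1 p.2) ^ (2 * g) ∂(iid ν) ≤
        ∑ p ∈ P, Real.exp n :=
      Finset.sum_le_sum fun p hp => by
        rw [(hexp (2 * g) p hp).2]
        have h2 := (PP_mem hd hp).2
        calc AA ν ℓ (2 * g) ^ (p.2 + 1 - p.1) ≤ Real.exp 1 ^ (p.2 + 1 - p.1) :=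
              pow_le_pow_left₀ (hAA _).le hMC.a4 _
          _ ≤ Real.exp 1 ^ n := pow_le_pow_right₀ (Real.one_le_exp zero_le_one) (by omega)
          _ = Real.exp n := by rw [← Real.exp_nat_mul, mul_one]
    have h2 : ∑ p ∈ P, Real.exp n ≤ (n : ℝ) ^ 2 * Real.exp n := by
      rw [Finset.sum_const, nsmul_eq_mul]
      exact mul_le_mul_of_nonneg_right hcard (Real.exp_pos _).le
    calc (n : ℝ) ^ 2 * ∑ p ∈ P, ∫ x : ℕ → ℝ, Real.exp (cD ℓ x p.1 p.2) ^ (2 * g) ∂(iid ν) ≤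
          (n : ℝ) ^ 2 * ((n : ℝ) ^ 2 * Real.exp n) :=
          mul_le_mul_of_nonneg_left (h1.trans h2) (by positivity)
      _ = (n : ℝ) ^ 4 * Real.exp n := by ring

end Pool.Agent.H91.SLN
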