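import Pool.Agent.H98.SLN.Targets
import Pool.Agent.H79.CRX.CDC

/-!
Row UDC of the board sln_modules (MP_65efe8_pr), after Pool.Agent.H79.CRX.CDC.
-/

set_option autoImplicit false

open MeasureTheory ProbabilityTheory Filter Topology
open scoped ENNReal
open Pool.Agent.H95 Pool.Agent.H95.Cop Pool.Agent.H96.Cop Pool.Agent.H99.CE
open Pool.Agent.H98.SLN (T_UDC)
open Pool.Agent.H79.CRX (sum_inj reidx sum_later rearr)

namespace Pool.Agent.H91.SLN

/-- the sum over the positions of a long excursion, cell by cell -/
theorem cells (K : PMF ℕ) (k : ℕ) (g : ℕ → ℝ≥0∞)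
    (hg : ∀ D m : ℕ, 1 ≤ D → k < m → (D - 1) * k < m → m < (D + 1) * k → pk K m * 2⁻¹ ≤ g D)
    (j e r : ℕ) (hr : r < k) (hej : e ≤ j * k + r) (P Q : ℕ → ℝ≥0∞)
    (E E1 E2 E3 : ℕ → ℕ → ℝ≥0∞)
    (hE : ∀ i r1 b e2, r1 < k → e2 < k → i < b →
      E (i * k + r1) (b * k + e2) = E1 i r1 * E2 i b * E3 b e2) :
    ∑ t ∈ Finset.range (j * k + r - e + 1), ∑ m ∈ Finset.Icc 1 (j * k + r - e),
      (if t + m ≤ j * k + r - e then (if k < m then
        P (t + e) * (pk K m * 2⁻¹ * E (t + e) (t + m + e) * Q (t + m + e)) else 0) else 0) ≤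
    ∑ i ∈ Finset.range (j + 1), ∑ D ∈ Finset.Icc 1 j, (if i + D ≤ j then
        (∑ r1 ∈ Finset.range k, (if e ≤ i * k + r1 then P (i * k + r1) * E1 i r1 else 0)) *
        (g D * E2 i (i + D) * ∑ e2 ∈ Finset.range k,
          (if e2 ≤ (j - i - D) * k + r then E3 (i + D) e2 * Q ((i + D) * k + e2) else 0))
        else 0) := by
  set S := j * k + r with hS
  have hSN : S < (j + 1) * k := by rw [add_mul, one_mul]; omega
  -- positions
  set f : ℕ → ℕ → ℝ≥0∞ := fun u v => if u + k < v then P u *
    (pk K (v - u) * 2⁻¹ * E u v * Q v) else 0 with hf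
  have h2 : ∀ t ∈ Finset.range (S - e + 1), ∀ m ∈ Finset.Icc 1 (S - e),
      (if t + m ≤ S - e then (if k < m then
        P (t + e) * (pk K m * 2⁻¹ * E (t + e) (t + m + e) * Q (t + m + e)) else 0) else 0) =
      (if t + m ≤ S - e then f (t + e) (t + m + e) else 0) := by
    intro t _ m _
    split_ifs with h h'
    · simp only [hf]
      rw [if_pos (by omega)]
      have e2 : t + m + e - (t + e) = m := by omega
      rw [e2]
    · simp only [hf]
      rw [if_neg (by omega)]
    · rfl
  rw [Finset.sum_congr rfl (fun t ht => Finset.sum_congr rfl (h2 t ht))]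
  refine (reidx e S ((j + 1) * k) hej hSN f).trans ?_
  rw [sum_cells]
  apply Finset.sum_le_sum
  intro i hi
  rw [Finset.mem_range] at hi
  have h3 : ∀ r1 ∈ Finset.range k, ∑ v ∈ Finset.range ((j + 1) * k),
      (if e ≤ i * k + r1 ∧ v ≤ S then f (i * k + r1) v else 0) ≤
      ∑ D ∈ Finset.Icc 1 j, (if i + D ≤ j then (if e ≤ i * k + r1 then
          P (i * k + r1) * E1 i r1 else 0) *
        (g D * E2 i (i + D) * ∑ e2 ∈ Finset.range k,
          (if e2 ≤ (j - i - D) * k + r then E3 (i + D) e2 * Q ((i + D) * k + e2) else 0))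
        else 0) := by
    intro r1 hr1
    rw [Finset.mem_range] at hr1
    rw [sum_cells]
    have h4 := sum_later i j (fun b => (if e ≤ i * k + r1 then
          P (i * k + r1) * E1 i r1 else 0) *
        (g (b - i) * E2 i b * ∑ e2 ∈ Finset.range k,
          (if e2 ≤ (j - b) * k + r then E3 b e2 * Q (b * k + e2) else 0)))
    have h5 : ∀ D ∈ Finset.Icc 1 j, (if i + D ≤ j then (fun b => (if e ≤ i * k + r1 then
          P (i * k + r1) * E1 i r1 else 0) *
        (g (b - i) * E2 i b * ∑ e2 ∈ Finset.range k,
          (if e2 ≤ (j - b) * k + r then E3 b e2 * Q (b * k + e2) else 0))) (i + D)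
          else 0) = (if i + D ≤ j then (if e ≤ i * k + r1 then
          P (i * k + r1) * E1 i r1 else 0) *
        (g D * E2 i (i + D) * ∑ e2 ∈ Finset.range k,
          (if e2 ≤ (j - i - D) * k + r then E3 (i + D) e2 * Q ((i + D) * k + e2) else 0))
        else 0) := by
      intro D _
      simp only
      have e1 : i + D - i = D := by omega
      rw [e1, Nat.sub_sub]
    rw [Finset.sum_congr rfl h5] at h4
    refine le_trans ?_ h4
    apply Finset.sum_le_sum
    intro b hb
    rw [Finset.mem_range] at hb
    have hs1 : i * k + r1 < (i + 1) * k := by rw [add_mul, one_mul]; omega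
    by_cases hib : i < b
    · rw [if_pos hib]
      have hb1 : (i + 1) * k ≤ b * k := Nat.mul_le_mul_right k hib
      have hb3 : (b + 1) * k = b * k + k := by ring
      rw [Finset.mul_sum, Finset.mul_sum]
      apply Finset.sum_le_sum
      intro e2 he2
      rw [Finset.mem_range] at he2
      by_cases hc : e ≤ i * k + r1 ∧ b * k + e2 ≤ S
      · rw [if_pos hc, if_pos hc.1]
        have hbj : b * k ≤ j * k := Nat.mul_le_mul_right k (by omega)
        have e6 : (j - b) * k = j * k - b * k := Nat.sub_mul _ _ _
        rw [if_pos (by omega)]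
        simp only [hf]
        split_ifs with hd
        · have hgg : pk K (b * k + e2 - (i * k + r1)) * 2⁻¹ ≤ g (b - i) := by
            have e3 : (b - i - 1) * k = b * k - (i + 1) * k := by
              rw [← Nat.sub_mul]
              congr 1
            have e4 : (b - i + 1) * k = b * k + k - i * k := by
              have : b - i + 1 = b + 1 - i := by omega
              rw [this, Nat.sub_mul, hb3]
            apply hg (b - i) (b * k + e2 - (i * k + r1)) (by omega) (by omega)
            · omega
            · omega
          rw [hE i r1 b e2 hr1 he2 hib]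
          calc P (i * k + r1) * (pk K (b * k + e2 - (i * k + r1)) * 2⁻¹ *
                (E1 i r1 * E2 i b * E3 b e2) * Q (b * k + e2))
              ≤ P (i * k + r1) * (g (b - i) *
                (E1 i r1 * E2 i b * E3 b e2) * Q (b * k + e2)) := by
                gcongr
            _ = _ := by ring
        · exact zero_le
      · rw [if_neg hc]
        exact zero_le
    · rw [if_neg hib]
      have hb1 : b * k ≤ i * k := Nat.mul_le_mul_right k (by omega)
      apply le_of_eq
      apply Finset.sum_eq_zero
      intro e2 he2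
      rw [Finset.mem_range] at he2
      simp only [hf]
      rw [if_neg (show ¬ (i * k + r1 + k < b * k + e2) by omega)]
      simp
  refine (Finset.sum_le_sum h3).trans ?_
  rw [Finset.sum_comm]
  apply Finset.sum_le_sum
  intro D _
  split_ifs with h
  · rw [Finset.sum_mul]
  · simp

/-- one start `e`, one end `r` -/
theorem step (hPFD : T_PFD) (K : PMF ℕ) (k B : ℕ) (g : ℕ → ℝ≥0∞) (hkB : k ≤ B)
    (hg : ∀ D m : ℕ, 1 ≤ D → k < m → (D - 1) * k < m → m < (D + 1) * k → pk K m * 2⁻¹ ≤ g D)
    (j e r : ℕ) (hr : r < k) (hej : e ≤ j * k + r) (x : ℕ → ℝ) :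
    PF (w1 K B) (j * k + r - e) (shift e x) ≤ PF (w0 K k k) (j * k + r - e) (shift e x) +
      (∑ i ∈ Finset.range (j + 1), ∑ D ∈ Finset.Icc 1 j, (if i + D ≤ j then
        (∑ r1 ∈ Finset.range k, (if e ≤ i * k + r1 then
          PF (w0 K k k) (i * k + r1 - e) (shift e x) * 1 else 0)) *
        (g D * 1 * ∑ e2 ∈ Finset.range k,
          (if e2 ≤ (j - i - D) * k + r then 1 *
            PF (w1 K B) (j * k + r - ((i + D) * k + e2)) (shift ((i + D) * k + e2) x) else 0))
        else 0)) +
      ∑ i ∈ Finset.range (j + 1), ∑ D ∈ Finset.Icc 1 j, (if i + D ≤ j then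
        (∑ r1 ∈ Finset.range k, (if e ≤ i * k + r1 then
          PF (w0 K k k) (i * k + r1 - e) (shift e x) * ex (i * k + r1) ((i + 1) * k) x else 0)) *
        (g D * ex ((i + 1) * k) ((i + D) * k) x * ∑ e2 ∈ Finset.range k,
          (if e2 ≤ (j - i - D) * k + r then ex 0 e2 (shift ((i + D) * k) x) *
            PF (w1 K B) (j * k + r - ((i + D) * k + e2)) (shift ((i + D) * k + e2) x) else 0))
        else 0) := by
  set S := j * k + r with hS
  set w' : ℕ → (ℕ → ℝ) → ℝ≥0∞ := fun m x =>
    (if k < m ∧ m ≤ B then pk K m * 2⁻¹ else 0) + (if k < m then wb K m x else 0) with hw'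
  have hw1 : (fun n x => w0 K k k n x + w' n x) = w1 K B := by
    funext n y
    simp only [hw', w0, w1, wa]
    by_cases h : n ≤ k
    · rw [if_pos h, if_pos h, if_neg (by omega), if_neg (by omega), add_zero, add_zero,
        if_pos (h.trans hkB)]
    · by_cases h2 : n ≤ B
      · rw [if_neg h, if_neg h, if_pos ⟨by omega, h2⟩, if_pos (by omega), if_pos h2]
        simp
      · rw [if_neg h, if_neg h, if_neg (by omega), if_pos (by omega), if_neg h2]
        simp
  have h1 := hPFD (w0 K k k) w' (S - e) (shift e x)
  rw [hw1] at h1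
  refine h1.trans ?_
  rw [add_assoc]
  refine add_le_add le_rfl ?_
  set P : ℕ → ℝ≥0∞ := fun u => PF (w0 K k k) (u - e) (shift e x) with hP
  set Q : ℕ → ℝ≥0∞ := fun v => PF (w1 K B) (S - v) (shift v x) with hQ
  have c1 := cells K k g hg j e r hr hej P Q (fun _ _ => 1) (fun _ _ => 1) (fun _ _ => 1)
    (fun _ _ => 1) (fun _ _ _ _ _ _ _ => by simp)
  have c2 := cells K k g hg j e r hr hej P Q (fun u v => ex u v x)
    (fun i r1 => ex (i * k + r1) ((i + 1) * k) x) (fun i b => ex ((i + 1) * k) (b * k) x)
    (fun b e2 => ex 0 e2 (shift (b * k) x)) (by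
      intro i r1 b e2 hr1 he2 hib
      have hs1 : i * k + r1 < (i + 1) * k := by rw [add_mul, one_mul]; omega
      have hb1 : (i + 1) * k ≤ b * k := Nat.mul_le_mul_right k hib
      show ex (i * k + r1) (b * k + e2) x = ex (i * k + r1) ((i + 1) * k) x *
        ex ((i + 1) * k) (b * k) x * ex 0 e2 (shift (b * k) x)
      rw [ex_shift, zero_add, ex_mul x hs1.le hb1, ex_mul x (hs1.le.trans hb1) (by omega)]
      congr 1
      omega)
  refine le_trans ?_ (add_le_add c1 c2)
  rw [← hS, ← Finset.sum_add_distrib]
  refine Finset.sum_le_sum fun t _ => ?_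
  rw [← Finset.sum_add_distrib]
  refine Finset.sum_le_sum fun m _ => ?_
  by_cases htm : t + m ≤ S - e
  · rw [if_pos htm, if_pos htm, if_pos htm]
    have e1 : t + e - e = t := by omega
    have e3 : S - e - t - m = S - (t + m + e) := by omega
    have e4 : shift (t + m) (shift e x) = shift (t + m + e) x := by rw [shift_shift]
    by_cases hkm : k < m
    · rw [if_pos hkm, if_pos hkm]
      simp only [hP, hQ, hw', e1, e3, e4, if_pos hkm]
      have h6 : wb K m (shift t (shift e x)) = pk K m * 2⁻¹ * ex (t + e) (t + m + e) x := by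
        simp only [wb]
        rw [shift_shift, ex_shift]
        congr 2
        · omega
        · omega
      rw [h6]
      have h7 : (if k < m ∧ m ≤ B then pk K m * 2⁻¹ else 0 : ℝ≥0∞) ≤ pk K m * 2⁻¹ := by
        split_ifs
        · exact le_rfl
        · exact zero_le
      calc PF (w0 K k k) t (shift e x) * (((if k < m ∧ m ≤ B then pk K m * 2⁻¹ else 0) +
              pk K m * 2⁻¹ * ex (t + e) (t + m + e) x) *
              PF (w1 K B) (S - (t + m + e)) (shift (t + m + e) x))
          ≤ PF (w0 K k k) t (shift e x) * ((pk K m * 2⁻¹ +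
              pk K m * 2⁻¹ * ex (t + e) (t + m + e) x) *
              PF (w1 K B) (S - (t + m + e)) (shift (t + m + e) x)) := by
            gcongr
        _ = _ := by ring
    · rw [if_neg hkm, if_neg hkm]
      simp only [hw', if_neg hkm, if_neg (fun h : k < m ∧ m ≤ B => hkm h.1)]
      simp
  · rw [if_neg htm, if_neg htm, if_neg htm]
    simp

theorem pf_UDC (hPFD : Pool.Agent.H99.CE.T_PFD) : T_UDC := by
  intro K k B g hk hkB hg p j x
  unfold NX
  set pe : ℕ → ℝ≥0∞ := fun e => if p = true then ex 0 e x else 1 with hpe
  -- one start and one end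
  have h1 : ∀ e ∈ Finset.range k, ∀ r ∈ Finset.range k, (if e ≤ j * k + r then
      pe e * PF (w1 K B) (j * k + r - e) (shift e x) *
        (if false = true then ex (j * k + r) ((j + 1) * k) x else 1) else 0) ≤
      (if e ≤ j * k + r then pe e *
        PF (w0 K k k) (j * k + r - e) (shift e x) *
        (if false = true then ex (j * k + r) ((j + 1) * k) x else 1) else 0) +
      (∑ i ∈ Finset.range (j + 1), ∑ D ∈ Finset.Icc 1 j, (if i + D ≤ j then
        (∑ r1 ∈ Finset.range k, (if e ≤ i * k + r1 then pe e *
          PF (w0 K k k) (i * k + r1 - e) (shift e x) * (if false = true then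
            ex (i * k + r1) ((i + 1) * k) x else 1) else 0)) *
        (g D * ∑ e2 ∈ Finset.range k,
          (if e2 ≤ (j - i - D) * k + r then (if false = true then
            ex 0 e2 (shift ((i + D) * k) x) else 1) *
            PF (w1 K B) ((j - i - D) * k + r - e2) (shift e2 (shift ((i + D) * k) x)) *
            (if false = true then ex ((j - i - D) * k + r) ((j - i - D + 1) * k)
              (shift ((i + D) * k) x) else 1) else 0))
        else 0)) +
      ∑ i ∈ Finset.range (j + 1), ∑ D ∈ Finset.Icc 1 j, (if i + D ≤ j then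
        (∑ r1 ∈ Finset.range k, (if e ≤ i * k + r1 then pe e *
          PF (w0 K k k) (i * k + r1 - e) (shift e x) * (if true = true then
            ex (i * k + r1) ((i + 1) * k) x else 1) else 0)) *
        (g D * ex ((i + 1) * k) ((i + D) * k) x * ∑ e2 ∈ Finset.range k,
          (if e2 ≤ (j - i - D) * k + r then (if true = true then
            ex 0 e2 (shift ((i + D) * k) x) else 1) *
            PF (w1 K B) ((j - i - D) * k + r - e2) (shift e2 (shift ((i + D) * k) x)) *
            (if false = true then ex ((j - i - D) * k + r) ((j - i - D + 1) * k)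
              (shift ((i + D) * k) x) else 1) else 0))
        else 0) := by
    intro e he r hr
    rw [Finset.mem_range] at he hr
    have hQ : ∀ i D : ℕ, i + D ≤ j → ∀ e2 : ℕ, e2 ≤ (j - i - D) * k + r →
        PF (w1 K B) (j * k + r - ((i + D) * k + e2)) (shift ((i + D) * k + e2) x) =
        PF (w1 K B) ((j - i - D) * k + r - e2) (shift e2 (shift ((i + D) * k) x)) := by
      intro i D hD e2 he2
      rw [shift_shift]
      have e6 : (j - i - D) * k = j * k - (i + D) * k := by
        rw [Nat.sub_sub, Nat.sub_mul]
      have e7 : (i + D) * k ≤ j * k := Nat.mul_le_mul_right k hD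
      congr 1
      · omega
      · congr 1
        omega
    by_cases hej : e ≤ j * k + r
    · rw [if_pos hej, if_pos hej]
      simp only [if_true, Bool.false_eq_true, if_false, mul_one, one_mul]
      refine (mul_le_mul_right (step hPFD K k B g hkB hg j e r hr hej x) _).trans ?_
      rw [mul_add, mul_add]
      refine add_le_add (add_le_add le_rfl (le_of_eq ?_)) (le_of_eq ?_)
      · rw [Finset.mul_sum]
        apply Finset.sum_congr rfl
        intro i _
        rw [Finset.mul_sum]
        apply Finset.sum_congr rfl
        intro D _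
        by_cases hD : i + D ≤ j
        · rw [if_pos hD, if_pos hD, ← mul_assoc, Finset.mul_sum]
          congr 1
          · apply Finset.sum_congr rfl
            intro r1 _
            split_ifs <;> ring
          · rw [mul_one]
            congr 1
            apply Finset.sum_congr rfl
            intro e2 _
            by_cases h : e2 ≤ (j - i - D) * k + r
            · rw [if_pos h, if_pos h, one_mul, hQ i D hD e2 h]
            · rw [if_neg h, if_neg h]
        · rw [if_neg hD, if_neg hD, mul_zero]
      · rw [Finset.mul_sum]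
        apply Finset.sum_congr rfl
        intro i _
        rw [Finset.mul_sum]
        apply Finset.sum_congr rfl
        intro D _
        by_cases hD : i + D ≤ j
        · rw [if_pos hD, if_pos hD, ← mul_assoc, Finset.mul_sum]
          congr 1
          · apply Finset.sum_congr rfl
            intro r1 _
            split_ifs <;> ring
          · congr 1
            apply Finset.sum_congr rfl
            intro e2 _
            by_cases h : e2 ≤ (j - i - D) * k + r
            · rw [if_pos h, if_pos h, hQ i D hD e2 h]
            · rw [if_neg h, if_neg h]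
        · rw [if_neg hD, if_neg hD, mul_zero]
    · rw [if_neg hej]
      exact zero_le
  refine (Finset.sum_le_sum (fun e he => Finset.sum_le_sum (h1 e he))).trans ?_
  simp only [Finset.sum_add_distrib]
  rw [add_assoc]
  refine add_le_add le_rfl (le_of_eq ?_)
  have h2 := rearr k j (fun i e => ∑ r1 ∈ Finset.range k, (if e ≤ i * k + r1 then
        pe e * PF (w0 K k k) (i * k + r1 - e) (shift e x) * (if false = true then
            ex (i * k + r1) ((i + 1) * k) x else 1) else 0))
    (fun i D => g D)
    (fun i D r => ∑ e2 ∈ Finset.range k,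
          (if e2 ≤ (j - i - D) * k + r then (if false = true then
            ex 0 e2 (shift ((i + D) * k) x) else 1) *
            PF (w1 K B) ((j - i - D) * k + r - e2) (shift e2 (shift ((i + D) * k) x)) *
            (if false = true then ex ((j - i - D) * k + r) ((j - i - D + 1) * k)
              (shift ((i + D) * k) x) else 1) else 0))
  have h3 := rearr k j (fun i e => ∑ r1 ∈ Finset.range k, (if e ≤ i * k + r1 then
        pe e * PF (w0 K k k) (i * k + r1 - e) (shift e x) * (if true = true then
            ex (i * k + r1) ((i + 1) * k) x else 1) else 0))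
    (fun i D => g D * ex ((i + 1) * k) ((i + D) * k) x)
    (fun i D r => ∑ e2 ∈ Finset.range k,
          (if e2 ≤ (j - i - D) * k + r then (if true = true then
            ex 0 e2 (shift ((i + D) * k) x) else 1) *
            PF (w1 K B) ((j - i - D) * k + r - e2) (shift e2 (shift ((i + D) * k) x)) *
            (if false = true then ex ((j - i - D) * k + r) ((j - i - D + 1) * k)
              (shift ((i + D) * k) x) else 1) else 0))
  simp only at h2 h3
  rw [h2, h3, ← Finset.sum_add_distrib]
  apply Finset.sum_congr rfl
  intro i _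
  rw [← Finset.sum_add_distrib]
  apply Finset.sum_congr rfl
  intro D _
  by_cases hD : i + D ≤ j
  · rw [if_pos hD, if_pos hD, if_pos hD]
    congr 1
    · congr 2
      rw [Finset.sum_comm]
    · congr 2
      rw [Finset.sum_comm]
  · rw [if_neg hD, if_neg hD, if_neg hD, add_zero]

end Pool.Agent.H91.SLN
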